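import Pool.Agent.helper74.FD.SpecG

/-!
# Project FD (MP_07c750_an), row DN (helper16)
-/

set_option autoImplicit false

open scoped MatrixGroups ContDiff Topology UpperHalfPlane ComplexConjugate
open UpperHalfPlane MeasureTheory Filter Set

namespace Pool.Agent.FD

open Pool.Agent.RS Pool.Agent.MS

private theorem DN_bdd (hGLC : RS.GLC_stmt) (Γ : Subgroup SL(2, ℝ)) (hΓ : QU.SurfaceGroup Γ) (f : SL(2, ℝ) → ℝ) (hf : Continuous f)
    (hinv : ∀ (γ : Γ) (x : SL(2, ℝ)), f ((γ : SL(2, ℝ)) * x) = f x) : ∃ B : ℝ, ∀ x, f x ≤ B := by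
  obtain ⟨K, hK, hcov⟩ := hΓ.cocompact
  have hc := hGLC.2.2.1 K hK
  obtain ⟨B, hB⟩ := (hc.image hf).bddAbove
  refine ⟨B, fun x => ?_⟩
  obtain ⟨γ, hγ⟩ := hcov (x • I)
  rw [← hinv γ x]
  apply hB
  refine ⟨_, ?_, rfl⟩
  show ((γ : SL(2, ℝ)) * x) • I ∈ K
  rw [mul_smul]
  exact hγ

private theorem DN_cont (M : SL(2, ℝ)) (i j : Fin 2) : Continuous fun x : SL(2, ℝ) => (M * x).1 i j := by
  have h1 : ∀ i j, Continuous fun x : SL(2, ℝ) => x.1 i j := fun i j => Continuous.matrix_elem continuous_subtype_val i j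
  have h2 : (fun x : SL(2, ℝ) => (M * x).1 i j) = fun x => M.1 i 0 * x.1 0 j + M.1 i 1 * x.1 1 j := by
    funext x
    show (M.1 * x.1) i j = _
    rw [Matrix.mul_apply, Fin.sum_univ_two]
  rw [h2]
  exact (continuous_const.mul (h1 _ _)).add (continuous_const.mul (h1 _ _))

private theorem DN_mul (A B : SL(2, ℝ)) (i j : Fin 2) : (A * B).1 i j = A.1 i 0 * B.1 0 j + A.1 i 1 * B.1 1 j := by
  show (A.1 * B.1) i j = _
  rw [Matrix.mul_apply, Fin.sum_univ_two]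

private theorem DN_det (A : SL(2, ℝ)) : A.1 0 0 * A.1 1 1 - A.1 0 1 * A.1 1 0 = 1 := by
  rw [← Matrix.det_fin_two, A.2]

private theorem DN_i00 (A : SL(2, ℝ)) : (A⁻¹).1 0 0 = A.1 1 1 := by
  rw [Matrix.SpecialLinearGroup.coe_inv, Matrix.adjugate_fin_two]; rfl

private theorem DN_i01 (A : SL(2, ℝ)) : (A⁻¹).1 0 1 = -A.1 0 1 := by
  rw [Matrix.SpecialLinearGroup.coe_inv, Matrix.adjugate_fin_two]; rfl

private theorem DN_i10 (A : SL(2, ℝ)) : (A⁻¹).1 1 0 = -A.1 1 0 := by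
  rw [Matrix.SpecialLinearGroup.coe_inv, Matrix.adjugate_fin_two]; rfl

private theorem DN_i11 (A : SL(2, ℝ)) : (A⁻¹).1 1 1 = A.1 0 0 := by
  rw [Matrix.SpecialLinearGroup.coe_inv, Matrix.adjugate_fin_two]; rfl

private theorem DN_lM (A : SL(2, ℝ)) (h00 : A.1 0 0 = 1) (h01 : A.1 0 1 = 0) (h11 : A.1 1 1 = 1) : A = lM (A.1 1 0) := by
  apply Subtype.ext
  ext i j
  fin_cases i <;> fin_cases j
  · exact h00
  · exact h01
  · rfl
  · exact h11

/-- commutators are unipotent -/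
private theorem DN_comm (A B : SL(2, ℝ)) (hA : A.1 0 1 = 0) (hB : B.1 0 1 = 0) : A⁻¹ * B⁻¹ * A * B = lM ((A⁻¹ * B⁻¹ * A * B).1 1 0) := by
  have dA := DN_det A
  have dB := DN_det B
  rw [hA, zero_mul, sub_zero] at dA
  rw [hB, zero_mul, sub_zero] at dB
  apply DN_lM
  · simp only [DN_mul, DN_i00, DN_i01, DN_i10, DN_i11, hA, hB]
    linear_combination (B.1 0 0 * B.1 1 1) * dA + dB
  · simp only [DN_mul, DN_i00, DN_i01, DN_i10, DN_i11, hA, hB]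
    ring
  · simp only [DN_mul, DN_i00, DN_i01, DN_i10, DN_i11, hA, hB]
    linear_combination (B.1 0 0 * B.1 1 1) * dA + dB

private theorem DN_conj (B : SL(2, ℝ)) (u : ℝ) (h : B.1 0 1 = 0) (h2 : B.1 1 0 = u * (B.1 0 0 - B.1 1 1)) :
    (lM (-u) * B * lM u).1 0 0 = B.1 0 0 ∧ (lM (-u) * B * lM u).1 0 1 = 0 ∧ (lM (-u) * B * lM u).1 1 0 = 0 ∧ (lM (-u) * B * lM u).1 1 1 = B.1 1 1 := by
  refine ⟨?_, ?_, ?_, ?_⟩
  · simp only [DN_mul]
    rw [h]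
    simp [lM]
  · simp only [DN_mul]
    rw [h]
    simp [lM]
  · simp only [DN_mul]
    rw [h, h2]
    simp [lM]
    ring
  · simp only [DN_mul]
    rw [h]
    simp [lM]

theorem DN_proof (hXDS : EN.XDS_stmt) (hGLC : RS.GLC_stmt) : DN_stmt := by
  intro Γ g hΓ
  by_contra hcon
  push Not at hcon
  obtain ⟨ε, hε, hsm⟩ := hXDS Γ hΓ
  obtain ⟨-, -, -, -, -, -, -, -, -, -, -, -, -, -, -, -, -, -, hlMaM, -⟩ := id hGLC
  -- commuting
  have hcomm : ∀ γ γ' : Γ, (γ : SL(2, ℝ)) * (γ' : SL(2, ℝ)) = (γ' : SL(2, ℝ)) * (γ : SL(2, ℝ)) := by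
    intro γ γ'
    set A := g⁻¹ * (γ : SL(2, ℝ)) * g with hA
    set B := g⁻¹ * (γ' : SL(2, ℝ)) * g with hB
    have h1 := DN_comm A B (hcon γ) (hcon γ')
    set s := (A⁻¹ * B⁻¹ * A * B).1 1 0 with hs
    have h2 : g⁻¹ * ((γ⁻¹ * γ'⁻¹ * γ * γ' : Γ) : SL(2, ℝ)) * g = lM s := by
      rw [← h1, hA, hB]
      push_cast
      group
    set t := Real.log ((|s| + 1) / ε) with ht
    have hpos : 0 < (|s| + 1) / ε := div_pos (by positivity) hε
    have h3 : (g * aM (-t))⁻¹ * ((γ⁻¹ * γ'⁻¹ * γ * γ' : Γ) : SL(2, ℝ)) * (g * aM (-t)) = lM (Real.exp (-t) * s) := by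
      calc (g * aM (-t))⁻¹ * ((γ⁻¹ * γ'⁻¹ * γ * γ' : Γ) : SL(2, ℝ)) * (g * aM (-t))
          = (aM (-t))⁻¹ * ((g⁻¹ * ((γ⁻¹ * γ'⁻¹ * γ * γ' : Γ) : SL(2, ℝ)) * g) * aM (-t)) := by group
        _ = (aM (-t))⁻¹ * (aM (-t) * lM (Real.exp (-t) * s)) := by rw [h2, hlMaM]
        _ = lM (Real.exp (-t) * s) := by group
    have h4 : |Real.exp (-t) * s| < ε := by
      rw [Real.exp_neg, ht, Real.exp_log hpos, abs_mul, inv_div, abs_of_pos (div_pos hε (by positivity)), div_mul_eq_mul_div,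
        div_lt_iff₀ (by positivity)]
      nlinarith [abs_nonneg s]
    have h5 : EN.nr ε ((g * aM (-t))⁻¹ * ((γ⁻¹ * γ'⁻¹ * γ * γ' : Γ) : SL(2, ℝ)) * (g * aM (-t))) := by
      rw [h3]
      intro i j
      fin_cases i <;> fin_cases j
      · simpa [lM] using hε
      · simpa [lM] using hε
      · simpa [lM] using h4
      · simpa [lM] using hε
    have h6 := hsm _ _ h5
    have h7 : γ * γ' = γ' * γ := by
      have h8 : γ * γ' = γ' * γ * (γ⁻¹ * γ'⁻¹ * γ * γ') := by group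
      rw [h8, h6, mul_one]
    exact congrArg Subtype.val h7
  by_cases hhyp : ∃ γ₀ : Γ, (g⁻¹ * (γ₀ : SL(2, ℝ)) * g).1 0 0 ≠ (g⁻¹ * (γ₀ : SL(2, ℝ)) * g).1 1 1
  · obtain ⟨γ₀, hne⟩ := hhyp
    set A := g⁻¹ * (γ₀ : SL(2, ℝ)) * g with hA
    set u := A.1 1 0 / (A.1 0 0 - A.1 1 1) with hu
    have hAne : A.1 0 0 - A.1 1 1 ≠ 0 := sub_ne_zero.2 hne
    have hrel : ∀ γ : Γ, (g⁻¹ * (γ : SL(2, ℝ)) * g).1 1 0 = u * ((g⁻¹ * (γ : SL(2, ℝ)) * g).1 0 0 - (g⁻¹ * (γ : SL(2, ℝ)) * g).1 1 1) := by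
      intro γ
      set B := g⁻¹ * (γ : SL(2, ℝ)) * g with hB
      have h1 : B * A = A * B := by
        calc B * A = g⁻¹ * ((γ : SL(2, ℝ)) * (γ₀ : SL(2, ℝ))) * g := by rw [hA, hB]; group
          _ = g⁻¹ * ((γ₀ : SL(2, ℝ)) * (γ : SL(2, ℝ))) * g := by rw [hcomm γ γ₀]
          _ = A * B := by rw [hA, hB]; group
      have h2 : (B * A).1 1 0 = (A * B).1 1 0 := by rw [h1]
      rw [DN_mul B A 1 0, DN_mul A B 1 0] at h2
      rw [hu, div_mul_eq_mul_div, eq_div_iff hAne]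
      linarith
    set M : SL(2, ℝ) := lM (-u) * g⁻¹ with hM
    let f : SL(2, ℝ) → ℝ := fun x => ((M * x).1 0 0 ^ 2 + (M * x).1 0 1 ^ 2) * ((M * x).1 1 0 ^ 2 + (M * x).1 1 1 ^ 2)
    have hfc : Continuous f := (((DN_cont M 0 0).pow 2).add ((DN_cont M 0 1).pow 2)).mul (((DN_cont M 1 0).pow 2).add ((DN_cont M 1 1).pow 2))
    have hfi : ∀ (γ : Γ) (x : SL(2, ℝ)), f ((γ : SL(2, ℝ)) * x) = f x := by
      intro γ x
      set B := g⁻¹ * (γ : SL(2, ℝ)) * g with hB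
      have hdet := DN_det B
      rw [hcon γ, zero_mul, sub_zero] at hdet
      have h1 : M * ((γ : SL(2, ℝ)) * x) = (lM (-u) * B * lM u) * (M * x) := by
        have h0 : lM u * lM (-u) = 1 := by
          apply Subtype.ext
          ext i j
          fin_cases i <;> fin_cases j <;> simp [lM, Matrix.mul_apply, Fin.sum_univ_two]
        calc M * ((γ : SL(2, ℝ)) * x) = lM (-u) * B * (1 : SL(2, ℝ)) * g⁻¹ * x := by rw [hM, hB]; group
          _ = lM (-u) * B * (lM u * lM (-u)) * g⁻¹ * x := by rw [h0]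
          _ = (lM (-u) * B * lM u) * (M * x) := by rw [hM]; group
      obtain ⟨hD00, hD01, hD10, hD11⟩ := DN_conj B u (hcon γ) (hrel γ)
      show ((M * ((γ : SL(2, ℝ)) * x)).1 0 0 ^ 2 + (M * ((γ : SL(2, ℝ)) * x)).1 0 1 ^ 2) * ((M * ((γ : SL(2, ℝ)) * x)).1 1 0 ^ 2 + (M * ((γ : SL(2, ℝ)) * x)).1 1 1 ^ 2)
        = ((M * x).1 0 0 ^ 2 + (M * x).1 0 1 ^ 2) * ((M * x).1 1 0 ^ 2 + (M * x).1 1 1 ^ 2)
      rw [h1]
      set y := M * x with hy
      rw [DN_mul _ y 0 0, DN_mul _ y 0 1, DN_mul _ y 1 0, DN_mul _ y 1 1, hD00, hD01, hD10, hD11]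
      have h2 : (B.1 0 0 * B.1 1 1) ^ 2 = 1 := by rw [hdet, one_pow]
      linear_combination ((y.1 0 0 ^ 2 + y.1 0 1 ^ 2) * (y.1 1 0 ^ 2 + y.1 1 1 ^ 2)) * h2
    obtain ⟨C, hC⟩ := DN_bdd hGLC Γ hΓ f hfc hfi
    have h1 : ∀ t : ℝ, f (g * lM u * nM t) = 1 + t ^ 2 := by
      intro t
      have h0 : lM (-u) * lM u = 1 := by
        apply Subtype.ext
        ext i j
        fin_cases i <;> fin_cases j <;> simp [lM, Matrix.mul_apply, Fin.sum_univ_two]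
      have h2 : M * (g * lM u * nM t) = nM t := by
        calc M * (g * lM u * nM t) = (lM (-u) * lM u) * nM t := by rw [hM]; group
          _ = nM t := by rw [h0, one_mul]
      show ((M * (g * lM u * nM t)).1 0 0 ^ 2 + (M * (g * lM u * nM t)).1 0 1 ^ 2) * ((M * (g * lM u * nM t)).1 1 0 ^ 2 + (M * (g * lM u * nM t)).1 1 1 ^ 2) = _
      rw [h2]
      simp [nM]
    have h2 := hC (g * lM u * nM (|C| + 1))
    rw [h1] at h2
    nlinarith [abs_nonneg C, le_abs_self C]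
  · push Not at hhyp
    set M : SL(2, ℝ) := g⁻¹ with hM
    let f : SL(2, ℝ) → ℝ := fun x => (M * x).1 0 0 ^ 2 + (M * x).1 0 1 ^ 2
    have hfc : Continuous f := ((DN_cont M 0 0).pow 2).add ((DN_cont M 0 1).pow 2)
    have hfi : ∀ (γ : Γ) (x : SL(2, ℝ)), f ((γ : SL(2, ℝ)) * x) = f x := by
      intro γ x
      set B := g⁻¹ * (γ : SL(2, ℝ)) * g with hB
      have hdet := DN_det B
      have h01 : B.1 0 1 = 0 := hcon γ
      rw [h01, zero_mul, sub_zero, ← hhyp γ] at hdet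
      have h1 : M * ((γ : SL(2, ℝ)) * x) = B * (M * x) := by
        rw [hM, hB]; group
      show (M * ((γ : SL(2, ℝ)) * x)).1 0 0 ^ 2 + (M * ((γ : SL(2, ℝ)) * x)).1 0 1 ^ 2 = (M * x).1 0 0 ^ 2 + (M * x).1 0 1 ^ 2
      rw [h1]
      set y := M * x with hy
      rw [DN_mul _ y 0 0, DN_mul _ y 0 1, h01]
      linear_combination (y.1 0 0 ^ 2 + y.1 0 1 ^ 2) * hdet
    obtain ⟨C, hC⟩ := DN_bdd hGLC Γ hΓ f hfc hfi
    have h1 : ∀ t : ℝ, f (g * aM t) = Real.exp t := by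
      intro t
      have h2 : M * (g * aM t) = aM t := by rw [hM]; group
      show (M * (g * aM t)).1 0 0 ^ 2 + (M * (g * aM t)).1 0 1 ^ 2 = _
      rw [h2]
      have h3 : Real.exp t = Real.exp (t / 2) ^ 2 := by
        rw [← Real.exp_nat_mul]
        congr 1
        push_cast
        ring
      rw [h3]
      simp [aM]
    have h2 := hC (g * aM (C + 1))
    rw [h1] at h2
    have h3 := Real.add_one_le_exp (C + 1)
    linarith

end Pool.Agent.FD
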